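import Pool.Agent.Q109.Desc.Main

/-!
In characteristic two the module `X^q_F` of the composition `q = (2, 1, 1)` of `4` is not self-dual
and is not a trivial source module.
-/

set_option autoImplicit false

namespace Pool.Agent.Results.MP_45e6b1_al.DescentIdeal211

open Pool.Agent.Q109.Desc

universe u

/-- For every field `F` of characteristic two and the composition `q = (2, 1, 1)` of `4`, the module
`X^q_F` is not isomorphic to its dual and is not a direct summand of a permutation module. -/
theorem result (F : Type u) [Field F] [CharP F 2] :
    ∃ q : Composition 4, q.blocks = [2, 1, 1] ∧ ¬ SelfDual (rep F q) ∧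
      ¬ TrivialSource (rep F q) :=
  ⟨q211, rfl, not_selfDual F, not_trivialSource F⟩

end Pool.Agent.Results.MP_45e6b1_al.DescentIdeal211
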